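import Pool.Agent.E8helper48.RR.Stm4

set_option autoImplicit false

namespace Pool.Agent.E8helper71.RR

open RR48

theorem t_N2ALG : RR48.S_N2ALG := by
  intro al D z S I u v hal hD hz hz1 heq hcub hI hIS hu hv h1 h2
  have hzD : 0 < z * D := mul_pos hz hD
  obtain ⟨k, hk⟩ : ∃ k, k * (z * D) = 1 - z := ⟨(1 - z) / (z * D), by field_simp⟩
  have hk0 : 0 < k := by
    have : 0 < k * (z * D) := by rw [hk]; linarith
    exact pos_of_mul_pos_left this hzD.le
  have hk1 : k < 1 := by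
    have h3 : 1 < (D + 1) * z := by
      by_contra hc
      rw [not_lt] at hc
      have := mul_le_mul_of_nonneg_left hc hz.le
      linarith
    have h4 : k * (z * D) < 1 * (z * D) := by
      rw [hk]
      linarith
    exact lt_of_mul_lt_mul_right h4 hzD.le
  have eu : u = (1 - k) * z + k * I := by
    have : z * D * u = z * D * ((1 - k) * z + k * I) := by
      rw [hu]
      linear_combination (-(I - z)) * hk
    exact mul_left_cancel₀ hzD.ne' this
  have ev : v = (1 - k) * z + k * S := by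
    have : z * D * v = z * D * ((1 - k) * z + k * S) := by
      rw [hv]
      linear_combination (-(S - z)) * hk
    exact mul_left_cancel₀ hzD.ne' this
  have hS : 0 < S := hI.trans hIS
  have hk2 : 0 < 1 - k := by linarith
  obtain ⟨m2, hm2⟩ : ∃ m2, m2 = D * (k + D) := ⟨_, rfl⟩
  obtain ⟨m1, hm1⟩ : ∃ m1, m1 = D * (1 - k) * z + k := ⟨_, rfl⟩
  obtain ⟨m0, hm0⟩ : ∃ m0, m0 = al + (1 - k) * z := ⟨_, rfl⟩
  obtain ⟨n1, hn1⟩ : ∃ n1, n1 = al * (k + D) + k := ⟨_, rfl⟩
  obtain ⟨n0, hn0⟩ : ∃ n0, n0 = (1 + al) * (1 - k) * z + al := ⟨_, rfl⟩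
  have p2 : 0 < m2 := by rw [hm2]; positivity
  have p1 : 0 < m1 := by rw [hm1]; positivity
  have p0 : 0 < m0 := by rw [hm0]; positivity
  have e1 : S * (m2 * I ^ 2 + m1 * I + m0) ≤ n0 + n1 * I := by
    have a1 : D * I * (u + D * I) + al + u = m2 * I ^ 2 + m1 * I + m0 := by
      rw [eu, hm2, hm1, hm0]; ring
    have a2 : al * (u + D * I) + al + u = n0 + n1 * I := by
      rw [eu, hn0, hn1]; ring
    rw [a1, a2] at h1
    exact h1
  have e2 : n0 + n1 * S ≤ I * (m2 * S ^ 2 + m1 * S + m0) := by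
    have a1 : D * S * (v + D * S) + al + v = m2 * S ^ 2 + m1 * S + m0 := by
      rw [ev, hm2, hm1, hm0]; ring
    have a2 : al * (v + D * S) + al + v = n0 + n1 * S := by
      rw [ev, hn0, hn1]; ring
    rw [a1, a2] at h2
    exact h2
  have e3 : m0 + n1 ≤ m2 * (S * I) := by
    have : (S - I) * (m0 + n1) ≤ (S - I) * (m2 * (S * I)) := by
      have : (S - I) * (m2 * (S * I)) - (S - I) * (m0 + n1) =
          (I * (m2 * S ^ 2 + m1 * S + m0) - (n0 + n1 * S)) +
          ((n0 + n1 * I) - S * (m2 * I ^ 2 + m1 * I + m0)) := by ring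
      linarith
    exact le_of_mul_le_mul_left this (by linarith)
  have e4 : m0 * (S + I) + m1 * (S * I) ≤ n0 := by
    have := mul_le_mul_of_nonneg_right e3 hI.le
    have h3 : m0 * (S + I) + m1 * (S * I) - n0 = (S * (m2 * I ^ 2 + m1 * I + m0) - (n0 + n1 * I)) +
        ((m0 + n1) * I - m2 * (S * I) * I) := by ring
    linarith
  have e5 : m2 * z ^ 3 + m1 * z ^ 2 + m0 * z = n0 + n1 * z := by
    rw [hm2, hm1, hm0, hn0, hn1]
    linear_combination (D * z + 1) * heq
  have e6 : 0 ≤ m0 + n1 - m2 * z ^ 2 := by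
    have : z * D * (m0 + n1 - m2 * z ^ 2) =
        (1 + D) * (2 * D - 1) * z ^ 3 + (3 - D ^ 2) * z ^ 2 - 3 * z + 1 := by
      rw [hm2, hm0, hn1]
      linear_combination (-z + al + 1 - D * z ^ 2) * hk - (z * D + z * D ^ 2 + 1 - z) * heq
    rw [← this] at hcub
    exact nonneg_of_mul_nonneg_right hcub hzD
  have e7 : z ^ 2 ≤ S * I := by
    have : m2 * z ^ 2 ≤ m2 * (S * I) := by linarith
    exact le_of_mul_le_mul_left this p2
  have e8 : 2 * z < S + I := by
    have h3 : (2 * z) ^ 2 < (S + I) ^ 2 := by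
      have h4 := mul_pos (sub_pos.2 hIS) (sub_pos.2 hIS)
      have h5 : (S + I) ^ 2 = (S - I) * (S - I) + 4 * (S * I) := by ring
      rw [h5]
      linarith
    exact lt_of_pow_lt_pow_left₀ 2 (by positivity) h3
  have e9 : m0 * (2 * z) < m0 * (S + I) := mul_lt_mul_of_pos_left e8 p0
  have e10 : m1 * z ^ 2 ≤ m1 * (S * I) := mul_le_mul_of_nonneg_left e7 p1.le
  have e11 := mul_nonneg hz.le e6
  have e12 : m0 * (2 * z) + m1 * z ^ 2 = n0 + z * (m0 + n1 - m2 * z ^ 2) := by
    linear_combination e5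
  linarith

end Pool.Agent.E8helper71.RR
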